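import Pool.Agent.Lib.helper15.GH3

set_option autoImplicit false

open Set

namespace Pool.Agent.Results.MP_029391_gt.Counter

variable {X Y : Type} [MetricSpace X] [MetricSpace Y]

/-- Both projections of `S` are onto. -/
def IsCorr (S : Set (X × Y)) : Prop := (∀ x, ∃ y, (x, y) ∈ S) ∧ ∀ y, ∃ x, (x, y) ∈ S

/-- The distortion of `S`. -/
noncomputable def dis (S : Set (X × Y)) : ℝ :=
  sSup {r | ∃ p ∈ S, ∃ q ∈ S, r = |dist p.1 q.1 - dist p.2 q.2|}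

/-- The Gromov-Hausdorff distance, half the infimum of the distortions of correspondences. -/
noncomputable def dGH (X Y : Type) [MetricSpace X] [MetricSpace Y] : ℝ :=
  (1 / 2) * sInf (dis '' {S : Set (X × Y) | IsCorr S})

/-- An optimal correspondence. -/
def IsOptimal (S : Set (X × Y)) : Prop := IsCorr S ∧ dis S = 2 * dGH X Y

open Pool.Agent.Lib.helper15.GH3

lemma le_dis [Finite X] [Finite Y] {S : Set (X × Y)} {p q : X × Y} (hp : p ∈ S) (hq : q ∈ S) :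
    |dist p.1 q.1 - dist p.2 q.2| ≤ dis S :=
  le_csSup (((finite_range fun z : (X × Y) × X × Y => |dist z.1.1 z.2.1 - dist z.1.2 z.2.2|).subset
    (by rintro _ ⟨p, -, q, -, rfl⟩; exact ⟨(p, q), rfl⟩)).bddAbove) ⟨p, hp, q, hq, rfl⟩

lemma opt {D D' : Fin 4 → Fin 4 → ℤ} {h : Good D} {h' : Good D'} {σ : Fin 4 → Fin 4}
    (hs : σ.Surjective) (H0 : ∀ x y, |D x y - D' (σ x) (σ y)| ≤ 2)
    (H : ∀ f : Fin 4 → Fin 4, (∀ x y, |D x y - D' (f x) (f y)| ≤ 2) → f = σ)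
    {S : Set (Sp D h × Sp D' h')} (hS : IsOptimal S) {x : Sp D h} {y : Sp D' h'}
    (hp : (x, y) ∈ S) : y = σ x := by
  refine rigid H hS.1.1 (fun p hp q hq => (le_dis hp hq).trans_lt ?_) hp
  have : sInf (dis '' {S : Set (Sp D h × Sp D' h') | IsCorr S}) ≤ 2 := by
    refine csInf_le_of_le ⟨0, ?_⟩ ⟨{p | p.2 = σ p.1}, ⟨fun x => ⟨σ x, rfl⟩, fun y => ?_⟩, rfl⟩ ?_
    · rintro _ ⟨S, -, rfl⟩
      exact Real.sSup_nonneg (by rintro _ ⟨p, -, q, -, rfl⟩; exact abs_nonneg _)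
    · obtain ⟨x, rfl⟩ := hs y; exact ⟨x, rfl⟩
    · refine Real.sSup_le ?_ zero_le_two
      rintro _ ⟨⟨a, _⟩, (rfl : _ = σ a), ⟨b, _⟩, (rfl : _ = σ b), rfl⟩
      show |(D a b : ℝ) - D' (σ a) (σ b)| ≤ 2
      exact_mod_cast H0 a b
  rw [hS.2, dGH]
  push_cast
  linarith

theorem result :
    ∃ (X₁ X₂ X₃ : Type) (_ : MetricSpace X₁) (_ : MetricSpace X₂) (_ : MetricSpace X₃),
      CompactSpace X₁ ∧ CompactSpace X₂ ∧ CompactSpace X₃ ∧
      Nonempty X₁ ∧ Nonempty X₂ ∧ Nonempty X₃ ∧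
      ∀ R : Set (X₁ × X₂ × X₃),
        ¬ (IsOptimal ((fun r => (r.1, r.2.1)) '' R) ∧ IsOptimal ((fun r => (r.1, r.2.2)) '' R) ∧
          IsOptimal ((fun r => (r.2.1, r.2.2)) '' R)) := by
  refine ⟨Sp _ b1, Sp _ b2, Sp _ b3, inferInstance, inferInstance, inferInstance, inferInstance,
    inferInstance, inferInstance, inferInstance, inferInstance, inferInstance,
    fun R ⟨h1, h2, h3⟩ => ?_⟩
  obtain ⟨_, ⟨x, y, z⟩, hr, e⟩ := h1.1.1 (0 : Fin 4)
  obtain rfl : x = (0 : Fin 4) := congrArg Prod.fst e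
  have e1 := opt Function.surjective_id (by decide) r12 h1 ⟨_, hr, rfl⟩
  have e2 := opt (by decide) (by decide) r13 h2 ⟨_, hr, rfl⟩
  have e3 := opt Function.surjective_id (by decide) r23 h3 ⟨_, hr, rfl⟩
  exact absurd (e2.symm.trans (e3.trans e1)) (show sw 0 ≠ 0 by decide)

end Pool.Agent.Results.MP_029391_gt.Counter
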